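import Pool.Agent.W909.RK.Main
import Pool.Agent.W909.RK6.Inst
import Pool.Agent.W909.RK8.Inst
import Pool.Agent.W909.RK10.Inst
import Pool.Agent.W909.RK12.Inst
import Pool.Agent.W909.RK14.Inst

/-!
# `π(K_{r+1}^r)` for `r = 6, 8, 10, 12, 14`

`π(K_7^6) ≤ 0.81662`, `π(K_9^8) ≤ 0.86809`, `π(K_11^10) ≤ 0.89673`, `π(K_13^12) ≤ 0.91493`,
`π(K_15^14) ≤ 0.92756`.

The notions are those of `Pool.Agent.H120R2.CliqueDefs`: `ex n k m = ex(n, K_m^k)` and
`turanDensity k m = π(K_m^k)`.

Outline.  Let `T` be the family of the non-edges of a `K_{r+1}^r`-free `r`-graph: every `r + 1`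
vertices contain a member of `T`.  The link of a set of `r - 3` vertices is a 3-graph.  A sum of
squares certificate on six vertices (one for each `r`, checked by the kernel on all 3-graphs on six
vertices) gives a linear inequality for the distribution of the number of edges of a 3-graph in four
random vertices.  If `m ≥ 1` is the number of members of `T` in a set of `r + 1` vertices, a random
four-subset of it contains the hypergeometric number of them in the link of the other `r - 3`
vertices.  Averaging turns the inequality into a lower bound for the density of `T`.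
-/

set_option autoImplicit false

open Filter Topology

namespace Pool.Agent.Results.MP_a4d830_co.EvenUniformities

open Pool.Agent.H120R2.Clique Pool.Agent.W909.RK

/-- The limits `π(K_{r+1}^r)` of `ex(n, K_{r+1}^r) / C(n,r)`, `r = 6, 8, 10, 12, 14`, exist and are
at most `0.81662`, `0.86809`, `0.89673`, `0.91493` and `0.92756`. -/
theorem result :
    (Tendsto (fun n : ℕ => (ex n 6 7 : ℝ) / (n.choose 6 : ℝ)) atTop (𝓝 (turanDensity 6 7)) ∧
      turanDensity 6 7 ≤ 0.81662) ∧
    (Tendsto (fun n : ℕ => (ex n 8 9 : ℝ) / (n.choose 8 : ℝ)) atTop (𝓝 (turanDensity 8 9)) ∧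
      turanDensity 8 9 ≤ 0.86809) ∧
    (Tendsto (fun n : ℕ => (ex n 10 11 : ℝ) / (n.choose 10 : ℝ)) atTop (𝓝 (turanDensity 10 11)) ∧
      turanDensity 10 11 ≤ 0.89673) ∧
    (Tendsto (fun n : ℕ => (ex n 12 13 : ℝ) / (n.choose 12 : ℝ)) atTop (𝓝 (turanDensity 12 13)) ∧
      turanDensity 12 13 ≤ 0.91493) ∧
    (Tendsto (fun n : ℕ => (ex n 14 15 : ℝ) / (n.choose 14 : ℝ)) atTop (𝓝 (turanDensity 14 15)) ∧
      turanDensity 14 15 ≤ 0.92756) := by
  refine ⟨⟨ratio_tendsto 6 7, ?_⟩, ⟨ratio_tendsto 8 9, ?_⟩, ⟨ratio_tendsto 10 11, ?_⟩,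
    ⟨ratio_tendsto 12 13, ?_⟩, ⟨ratio_tendsto 14 15, ?_⟩⟩
  · refine (turan_le (r := 6) (by norm_num) _ _ Pool.Agent.W909.RK6.h3
      Pool.Agent.W909.RK6.hp).trans ?_
    norm_num
  · refine (turan_le (r := 8) (by norm_num) _ _ Pool.Agent.W909.RK8.h3
      Pool.Agent.W909.RK8.hp).trans ?_
    norm_num
  · refine (turan_le (r := 10) (by norm_num) _ _ Pool.Agent.W909.RK10.h3
      Pool.Agent.W909.RK10.hp).trans ?_
    norm_num
  · refine (turan_le (r := 12) (by norm_num) _ _ Pool.Agent.W909.RK12.h3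
      Pool.Agent.W909.RK12.hp).trans ?_
    norm_num
  · refine (turan_le (r := 14) (by norm_num) _ _ Pool.Agent.W909.RK14.h3
      Pool.Agent.W909.RK14.hp).trans ?_
    norm_num

end Pool.Agent.Results.MP_a4d830_co.EvenUniformities
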