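import Pool.Agent.W843.Lnk.R4.Fin
import Pool.Agent.W843.Lnk.R5.Fin

/-!
# `π(K_5^4) ≤ 0.69644` and `π(K_6^5) ≤ 0.76334`

The notions are those of `Pool.Agent.H120R2.CliqueDefs`: `ex n k m = ex(n, K_m^k)` and
`turanDensity k m = π(K_m^k)`.

Outline. Let `k` be `4` or `5` and let `T` be the `k`-graph of the non-edges of a `K_{k+1}^k`-free
`k`-graph: every `k + 1` vertices contain a member of `T`. The links of the `(k-3)`-sets of vertices
are 3-graphs. A sum of squares certificate on six vertices (one for each `k`, checked by the kernel
on all 3-graphs on six vertices) gives one linear inequality for the distribution of the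
substructures on five vertices, valid for every 3-graph. On `k + 2` vertices consider the graph of
the pairs whose complement is in `T`: it has no isolated vertex, and the substructures of the links
of the `(k-3)`-subsets on the other five vertices are given by this graph. An inequality checked by
the kernel for all graphs on `k + 2` vertices without isolated vertices turns the average of the link
inequalities into a lower bound for the density of `T`.
-/

set_option autoImplicit false

open Filter Topology

namespace Pool.Agent.Results.MP_a4d830_co.FourFiveUniformCliques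

open Pool.Agent.H120R2.Clique

/-- For `(k, c) = (4, 0.69644), (5, 0.76334)` the limit `π(K_{k+1}^k)` of
`ex(n, K_{k+1}^k) / C(n,k)` exists and is at most `c`. -/
theorem result (k : ℕ) (c : ℝ) (h : (k = 4 ∧ c = 0.69644) ∨ (k = 5 ∧ c = 0.76334)) :
    Tendsto (fun n : ℕ => (ex n k (k + 1) : ℝ) / (n.choose k : ℝ)) atTop
      (𝓝 (turanDensity k (k + 1))) ∧
    turanDensity k (k + 1) ≤ c := by
  refine ⟨ratio_tendsto k (k + 1), ?_⟩
  rcases h with ⟨rfl, rfl⟩ | ⟨rfl, rfl⟩
  · exact Pool.Agent.W843.Lnk.R4.main
  · exact Pool.Agent.W843.Lnk.R5.main

end Pool.Agent.Results.MP_a4d830_co.FourFiveUniformCliques
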