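import Pool.Agent.W846.F2.Limit

/-!
# The Turán density of `K_5^4` for weakly 2-colourable 4-graphs is `11/16`

`exSplit n A` is the largest number of edges of a `K_5^4`-free 4-graph on `n` vertices without an
edge inside `A` or inside the complement of `A`; `exTwo n` is the maximum over all `A`.

Outline of the upper bound.  Let `V = A ∪ B`, let `T` be the 4-graph of non-edges, and let `Y`, `X`,
`X'` be the densities of `T` on the quadruples with `2 + 2`, `3 + 1`, `1 + 3` vertices in `A` and
`B` (quadruples with a repeated vertex count as members of `T`).  We show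
`Y + (2/3) (x X + X' / x) ≥ 1/2` for all `x > 0`, and use it for `x = |A| / |B|`.  For `b, b'` in `B`
let `g` be the graph of the pairs `a a'` with `a a' b b'` not in `T`, `d` its normalised degrees; a
triangle `a a' a''` of `g` is in the link of `b` or in the link of `b'`.  A pointwise inequality on
four vertices of `A` and two vertices of `B` (checked by the kernel for all configurations, for
seven integer parameter vectors that span the ones needed for all `x`) bounds from below the
average of `1/2 - g` plus a multiple of the triples in the links, by a sum of squares.  The same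
holds with `A` and `B` exchanged, and the cross terms of the two sums of squares turn the remaining
terms into `2/3 (x X + X' / x)`, since `(1 - d) (1 + y² - 2 y d) ≥ 0`.
-/

set_option autoImplicit false

open Finset Filter Topology

namespace Pool.Agent.Results.MP_a4d830_co.FourUniformTwoColourable

open Pool.Agent.H120R2.Clique Pool.Agent.W846.F2

/-- For every set `A` of vertices, with `a = |A|` and `b = n - a`, a `K_5^4`-free 4-graph without an
edge inside `A` or inside its complement has at most `ab(a² + b²)/6 + a²b²/8` edges, and some such
4-graph has at least `C(a,3) b + a C(b,3) + C(a,2) C(b,2) / 2` edges.  Hence the Turán density of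
`K_5^4` for the 4-graphs that have a vertex colouring with two colours and no monochromatic edge is
exactly `11/16`. -/
theorem result :
    (∀ (n : ℕ) (A : Finset (Fin n)), 24 * (exSplit n A : ℝ) ≤
      4 * (A.card : ℝ) ^ 3 * (Aᶜ.card : ℝ) + 4 * (A.card : ℝ) * (Aᶜ.card : ℝ) ^ 3
        + 3 * (A.card : ℝ) ^ 2 * (Aᶜ.card : ℝ) ^ 2) ∧
    (∀ (n : ℕ) (A : Finset (Fin n)),
      2 * (A.card.choose 3 * (Aᶜ).card + A.card * (Aᶜ).card.choose 3)
        + A.card.choose 2 * (Aᶜ).card.choose 2 ≤ 2 * exSplit n A) ∧
    Tendsto (fun n : ℕ => (exTwo n : ℝ) / (n.choose 4 : ℝ)) atTop (𝓝 (11 / 16)) :=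
  ⟨exSplit_upper, exSplit_lower, exTwo_tendsto⟩

end Pool.Agent.Results.MP_a4d830_co.FourUniformTwoColourable
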