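import Pool.Agent.W389.Tur.Lim
import Pool.Agent.H369R2.TD.Link

/-!
# `π(K_{r+1}^r) ≥ 1 - 1.9932/(r+1)` for all sufficiently large `r`

The notions are those of `Pool.Agent.H120R2.CliqueDefs`.

Outline.  The determinant codes of `Pool.Agent.H369R2.TD` (helpers 202, 369) reduce `(r+1)`-sets to
small Turán `(j, j-1)`-systems, `j` nearly Poisson.  Here they are fed with the new systems of
`Pool.Agent.W389.Tur.GoodEven`: for even `s`,
`t(s+1, s) ≤ 1/8 + (3/4)^s - (5/2) 2^(-s) + 7 4^(-s)`, and the mean is taken to be `6.8`.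
-/

set_option autoImplicit false

open Filter

namespace Pool.Agent.Results.MP_a4d830_co.ParityCode

open Pool.Agent.H120R2.Clique

/-- There is `r₀` such that for every `r ≥ r₀` the limit `π(K_{r+1}^r)` of `ex(n, K_{r+1}^r) / C(n,r)`
exists and `π(K_{r+1}^r) ≥ 1 - 1.9932/(r+1)`. -/
theorem result : ∃ r₀ : ℕ, ∀ r : ℕ, r₀ ≤ r →
    Tendsto (fun n : ℕ => (ex n r (r + 1) : ℝ) / (n.choose r : ℝ)) atTop
      (nhds (turanDensity r (r + 1))) ∧
    1 - 1.9932 / ((r : ℝ) + 1) ≤ turanDensity r (r + 1) := by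
  obtain ⟨r₀, h⟩ := eventually_atTop.mp Pool.Agent.W389.Tur.tur_19932
  refine ⟨r₀, fun r hr => ⟨ratio_tendsto r (r + 1), ?_⟩⟩
  have := Pool.Agent.H369R2.TD.density_of_tur (h r hr)
  have e : (1.9932 : ℝ) = 19932 / 10000 := by norm_num
  rw [e]
  exact this

end Pool.Agent.Results.MP_a4d830_co.ParityCode
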